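import Pool.Agent.W492.BB.Real

/-!
# The calculus of correspondences: composition is associative, external products
-/

open CategoryTheory AlgebraicGeometry

universe u v w

namespace Pool.Agent.W550.Corr

open Pool.Agent.H914 Pool.Agent.H914.VarClass Pool.Agent.H914.VarClass.Obj Pool.Agent.W492.BB

variable {k : Type u} [Field k] {𝒱 : VarClass k}

section maps

variable {W X Y Z V : 𝒱.Obj}

lemma prod_ext {f g : W ⟶ X.prod Y} (h1 : f ≫ fst X Y = g ≫ fst X Y)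
    (h2 : f ≫ snd X Y = g ≫ snd X Y) : f = g := by
  have e1 : (f ≫ fst X Y).hom = (g ≫ fst X Y).hom := by rw [h1]
  have e2 : (f ≫ snd X Y).hom = (g ≫ snd X Y).hom := by rw [h2]
  apply SmVar.hom_ext
  exact Limits.pullback.hom_ext e1 e2

lemma comp_lift (e : V ⟶ W) (f : W ⟶ X) (g : W ⟶ Y) :
    e ≫ Obj.lift f g = Obj.lift (e ≫ f) (e ≫ g) := by
  apply prod_ext <;> simp

lemma lift_eta : Obj.lift (fst X Y) (snd X Y) = 𝟙 (X.prod Y) := by
  apply prod_ext <;> simp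

/-- `(X × Y) × Z ⟶ X × (Y × Z)`. -/
noncomputable def aI (X Y Z : 𝒱.Obj) : (X.prod Y).prod Z ⟶ X.prod (Y.prod Z) :=
  Obj.lift (fst (X.prod Y) Z ≫ fst X Y)
    (Obj.lift (fst (X.prod Y) Z ≫ snd X Y) (snd (X.prod Y) Z))

/-- `X × (Y × Z) ⟶ (X × Y) × Z`. -/
noncomputable def aJ (X Y Z : 𝒱.Obj) : X.prod (Y.prod Z) ⟶ (X.prod Y).prod Z :=
  Obj.lift (Obj.lift (fst X (Y.prod Z)) (snd X (Y.prod Z) ≫ fst Y Z))
    (snd X (Y.prod Z) ≫ snd Y Z)

/-- `X × Y ⟶ Y × X`. -/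
noncomputable def sw (X Y : 𝒱.Obj) : X.prod Y ⟶ Y.prod X := Obj.lift (snd X Y) (fst X Y)

lemma aI_aJ : aI X Y Z ≫ aJ X Y Z = 𝟙 _ := by
  apply prod_ext
  · apply prod_ext <;> simp [aI, aJ, comp_lift]
  · simp [aI, aJ, comp_lift]

lemma aJ_aI : aJ X Y Z ≫ aI X Y Z = 𝟙 _ := by
  apply prod_ext
  · simp [aI, aJ, comp_lift]
  · apply prod_ext <;> simp [aI, aJ, comp_lift]

lemma sw_sw : sw X Y ≫ sw Y X = 𝟙 _ := by
  apply prod_ext <;> simp [sw, comp_lift]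

end maps

/-- Push-forwards along isomorphisms preserve the fundamental class. -/
class HasIso {F : Type w} [Field F] (T : TheoryData.{u, v, w} 𝒱 F) : Prop where
  push_one : ∀ {X Y : 𝒱.Obj} (f : X ⟶ Y) (g : Y ⟶ X), f ≫ g = 𝟙 X → g ≫ f = 𝟙 Y →
    T.down f 1 = 1

section theory

variable {F : Type w} [Field F] {δ : ℤ} (T : TheoryData.{u, v, w} 𝒱 F) [hT : IsTheory T δ]
  [hI : HasIso T] {W X Y Z V : 𝒱.Obj}

include hT hI

lemma push_pull_iso (f : X ⟶ Y) (g : Y ⟶ X) (h1 : f ≫ g = 𝟙 X) (h2 : g ≫ f = 𝟙 Y) (b : T.A Y) :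
    T.push f (T.pull f b) = b := by
  have := T.proj_right f 1 b
  rw [one_mul] at this
  rw [this]
  have h3 : T.push f 1 = 1 := hI.push_one f g h1 h2
  rw [h3, one_mul]

lemma pull_iso (f : X ⟶ Y) (g : Y ⟶ X) (h1 : f ≫ g = 𝟙 X) (h2 : g ≫ f = 𝟙 Y) (b : T.A Y) :
    T.pull f b = T.push g b := by
  have h3 := push_pull_iso T f g h1 h2 b
  have h4 : T.push g (T.push f (T.pull f b)) = T.push g b := by rw [h3]
  rw [← T.push_comp, h1, T.push_id] at h4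
  exact h4

/-- Change of the model: `q_* w = (f q)_* f^* w` for an isomorphism `f`. -/
lemma push_model (f : X ⟶ Y) (g : Y ⟶ X) (h1 : f ≫ g = 𝟙 X) (h2 : g ≫ f = 𝟙 Y) (q : Y ⟶ Z)
    (b : T.A Y) : T.push q b = T.push (f ≫ q) (T.pull f b) := by
  rw [T.push_comp, push_pull_iso T f g h1 h2]

lemma comp_eq_extR (Γ : T.A (X.prod Y)) (Δ : T.A (Y.prod Z)) :
    T.comp Γ Δ = T.extR Δ X Γ := by
  rw [TheoryData.extR, push_model T (aI X Y Z) (aJ X Y Z) aI_aJ aJ_aI, map_mul, ← T.pull_comp,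
    ← T.pull_comp, TheoryData.comp]
  have e1 : aI X Y Z ≫ u13 X Y Z = t13 X Y Z := by
    apply prod_ext <;> simp [aI, u13, t13, comp_lift]
  have e2 : aI X Y Z ≫ u12 X Y Z = fst (X.prod Y) Z := by
    apply prod_ext <;> simp [aI, u12, comp_lift]
  have e3 : aI X Y Z ≫ snd X (Y.prod Z) = t23 X Y Z := by
    apply prod_ext <;> simp [aI, t23, comp_lift]
  rw [e1, e2, e3]

lemma base_u12 (G : T.A (V.prod (X.prod Y))) :
    T.pull (u12 V Y Z) (T.push (u13 V X Y) G) =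
      T.push (prodMap (𝟙 V) (t23 X Y Z)) (T.pull (prodMap (𝟙 V) (fst (X.prod Y) Z)) G) := by
  have e1 : u12 V Y Z = aJ V Y Z ≫ fst (V.prod Y) Z := by
    apply prod_ext <;> simp [aJ, u12, comp_lift]
  rw [e1, T.pull_comp, T.base_fst, pull_iso T (aJ V Y Z) (aI V Y Z) aJ_aI aI_aJ, ← T.push_comp,
    push_model T (aJ V (X.prod Y) Z) (aI V (X.prod Y) Z) aJ_aI aI_aJ, ← T.pull_comp]
  have e2 : aJ V (X.prod Y) Z ≫ fst (V.prod (X.prod Y)) Z = prodMap (𝟙 V) (fst (X.prod Y) Z) := by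
    apply prod_ext <;> simp [aJ, comp_lift]
  have e3 : aJ V (X.prod Y) Z ≫ prodMap (u13 V X Y) (𝟙 Z) ≫ aI V Y Z =
      prodMap (𝟙 V) (t23 X Y Z) := by
    apply prod_ext
    · simp [aJ, aI, u13, t23, comp_lift]
    · apply prod_ext <;> simp [aJ, aI, u13, t23, comp_lift]
  rw [e2, e3]

lemma extR_comp (Δ : T.A (X.prod Y)) (Θ : T.A (Y.prod Z)) (c : T.A (V.prod X)) :
    T.extR (T.comp Δ Θ) V c = T.extR Θ V (T.extR Δ V c) := by
  have h1 : T.extR Θ V (T.extR Δ V c) = T.push (u13 V Y Z) (T.pull (snd V (Y.prod Z)) Θ *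
      T.pull (u12 V Y Z) (T.push (u13 V X Y) (T.pull (snd V (X.prod Y)) Δ *
        T.pull (u12 V X Y) c))) := rfl
  have h2 : T.extR (T.comp Δ Θ) V c = T.push (u13 V X Z) (T.pull (snd V (X.prod Z))
      (T.push (t13 X Y Z) (T.pull (t23 X Y Z) Θ * T.pull (fst (X.prod Y) Z) Δ)) *
        T.pull (u12 V X Z) c) := rfl
  have e1 : prodMap (𝟙 V) (t13 X Y Z) ≫ u13 V X Z = prodMap (𝟙 V) (t23 X Y Z) ≫ u13 V Y Z := by
    apply prod_ext <;> simp [u13, t13, t23]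
  have e2 : prodMap (𝟙 V) (t13 X Y Z) ≫ u12 V X Z =
      prodMap (𝟙 V) (fst (X.prod Y) Z) ≫ u12 V X Y := by
    apply prod_ext <;> simp [u12, t13]
  have e3 : prodMap (𝟙 V) (t23 X Y Z) ≫ snd V (Y.prod Z) =
      snd V ((X.prod Y).prod Z) ≫ t23 X Y Z := prodMap_snd _ _
  have e4 : prodMap (𝟙 V) (fst (X.prod Y) Z) ≫ snd V (X.prod Y) =
      snd V ((X.prod Y).prod Z) ≫ fst (X.prod Y) Z := prodMap_snd _ _
  rw [h1, h2, base_u12, T.base_snd, ← T.proj_left, ← T.proj_right, ← T.push_comp, ← T.push_comp,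
    map_mul (T.pull (snd V ((X.prod Y).prod Z))), map_mul (T.pull (prodMap (𝟙 V) _)),
    ← T.pull_comp, ← T.pull_comp, ← T.pull_comp, ← T.pull_comp, ← T.pull_comp, ← T.pull_comp,
    mul_assoc, e1, e2, e3, e4]

lemma comp_assoc (Γ : T.A (X.prod Y)) (Δ : T.A (Y.prod Z)) (Θ : T.A (Z.prod W)) :
    T.comp (T.comp Γ Δ) Θ = T.comp Γ (T.comp Δ Θ) := by
  rw [comp_eq_extR T (T.comp Γ Δ), comp_eq_extR T Γ Δ, comp_eq_extR T Γ, extR_comp]

omit hI in
lemma extR_graph (f : X ⟶ Y) (c : T.A (V.prod X)) :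
    T.extR (T.graph f) V c = T.push (prodMap (𝟙 V) f) c := by
  rw [TheoryData.extR, TheoryData.graph, T.base_snd, ← T.proj_right, ← T.push_comp, map_one,
    one_mul, ← T.pull_comp]
  have e1 : prodMap (𝟙 V) (Obj.lift (𝟙 X) f) ≫ u12 V X Y = 𝟙 _ := by
    apply prod_ext <;> simp [u12]
  have e2 : prodMap (𝟙 V) (Obj.lift (𝟙 X) f) ≫ u13 V X Y = prodMap (𝟙 V) f := by
    apply prod_ext <;> simp [u13]
  rw [e1, e2, T.pull_id]

omit hT hI in
/-- The class of the diagonal. -/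
noncomputable def dg (X : 𝒱.Obj) : T.A (X.prod X) := T.graph (𝟙 X)

lemma comp_dg (Γ : T.A (X.prod Y)) : T.comp Γ (dg T Y) = Γ := by
  rw [comp_eq_extR, dg, extR_graph]
  have e1 : prodMap (𝟙 X) (𝟙 Y) = 𝟙 _ := by
    apply prod_ext <;> simp
  rw [e1, T.push_id]

omit hI in
lemma dg_comp (Γ : T.A (X.prod Y)) : T.comp (dg T X) Γ = Γ := by
  rw [TheoryData.comp, dg, TheoryData.graph, T.base_fst, ← T.proj_left, ← T.push_comp, map_one,
    mul_one, ← T.pull_comp]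
  have e1 : prodMap (Obj.lift (𝟙 X) (𝟙 X)) (𝟙 Y) ≫ t13 X X Y = 𝟙 _ := by
    apply prod_ext <;> simp [t13]
  have e2 : prodMap (Obj.lift (𝟙 X) (𝟙 X)) (𝟙 Y) ≫ t23 X X Y = 𝟙 _ := by
    apply prod_ext <;> simp [t23]
  rw [e1, e2, T.push_id, T.pull_id]

end theory

section bilinear

variable {F : Type w} [Field F] (T : TheoryData.{u, v, w} 𝒱 F) {X Y Z : 𝒱.Obj}

/-- Composition as a bilinear map. -/
noncomputable def compL : T.A (X.prod Y) →ₗ[F] T.A (Y.prod Z) →ₗ[F] T.A (X.prod Z) :=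
  LinearMap.mk₂ F T.comp
    (fun a b c => by rw [TheoryData.comp, map_add, mul_add, map_add]; rfl)
    (fun q a c => by rw [TheoryData.comp, map_smul, mul_smul_comm, map_smul]; rfl)
    (fun a b c => by rw [TheoryData.comp, map_add, add_mul, map_add]; rfl)
    (fun q a c => by rw [TheoryData.comp, map_smul, smul_mul_assoc, map_smul]; rfl)

lemma compL_apply (Γ : T.A (X.prod Y)) (Δ : T.A (Y.prod Z)) : compL T Γ Δ = T.comp Γ Δ := rfl

lemma comp_add (Γ : T.A (X.prod Y)) (Δ Δ' : T.A (Y.prod Z)) :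
    T.comp Γ (Δ + Δ') = T.comp Γ Δ + T.comp Γ Δ' := map_add (compL T Γ) Δ Δ'
lemma comp_sub (Γ : T.A (X.prod Y)) (Δ Δ' : T.A (Y.prod Z)) :
    T.comp Γ (Δ - Δ') = T.comp Γ Δ - T.comp Γ Δ' := map_sub (compL T Γ) Δ Δ'
lemma comp_zero (Γ : T.A (X.prod Y)) : T.comp Γ (0 : T.A (Y.prod Z)) = 0 := map_zero (compL T Γ)
lemma add_comp (Γ Γ' : T.A (X.prod Y)) (Δ : T.A (Y.prod Z)) :
    T.comp (Γ + Γ') Δ = T.comp Γ Δ + T.comp Γ' Δ := by
  simp only [← compL_apply, map_add, LinearMap.add_apply]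
lemma sub_comp (Γ Γ' : T.A (X.prod Y)) (Δ : T.A (Y.prod Z)) :
    T.comp (Γ - Γ') Δ = T.comp Γ Δ - T.comp Γ' Δ := by
  simp only [← compL_apply, map_sub, LinearMap.sub_apply]
lemma zero_comp (Δ : T.A (Y.prod Z)) : T.comp (0 : T.A (X.prod Y)) Δ = 0 := by
  simp only [← compL_apply, map_zero, LinearMap.zero_apply]
lemma comp_sum {ι : Type*} (s : Finset ι) (Γ : T.A (X.prod Y)) (Δ : ι → T.A (Y.prod Z)) :
    T.comp Γ (∑ i ∈ s, Δ i) = ∑ i ∈ s, T.comp Γ (Δ i) := map_sum (compL T Γ) Δ s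
lemma sum_comp {ι : Type*} (s : Finset ι) (Γ : ι → T.A (X.prod Y)) (Δ : T.A (Y.prod Z)) :
    T.comp (∑ i ∈ s, Γ i) Δ = ∑ i ∈ s, T.comp (Γ i) Δ := by
  simp only [← compL_apply, map_sum, LinearMap.sum_apply]

/-- The action as a bilinear map. -/
noncomputable def actB : T.A (X.prod Y) →ₗ[F] T.A X →ₗ[F] T.A Y :=
  LinearMap.mk₂ F T.act
    (fun a b c => T.act_add a b c)
    (fun q a c => by rw [TheoryData.act_apply, smul_mul_assoc, map_smul]; rfl)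
    (fun a b c => map_add (T.actL a) b c)
    (fun q a c => map_smul (T.actL a) q c)

lemma actB_apply (Γ : T.A (X.prod Y)) (a : T.A X) : actB T Γ a = T.act Γ a := rfl

lemma act_sum {ι : Type*} (s : Finset ι) (Γ : ι → T.A (X.prod Y)) (a : T.A X) :
    T.act (∑ i ∈ s, Γ i) a = ∑ i ∈ s, T.act (Γ i) a := by
  simp only [← actB_apply, map_sum, LinearMap.sum_apply]

lemma act_map_add (Γ : T.A (X.prod Y)) (a b : T.A X) :
    T.act Γ (a + b) = T.act Γ a + T.act Γ b := map_add (T.actL Γ) a b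
lemma act_map_sub (Γ : T.A (X.prod Y)) (a b : T.A X) :
    T.act Γ (a - b) = T.act Γ a - T.act Γ b := map_sub (T.actL Γ) a b
lemma act_map_smul (Γ : T.A (X.prod Y)) (q : F) (a : T.A X) :
    T.act Γ (q • a) = q • T.act Γ a := map_smul (T.actL Γ) q a
lemma act_map_sum {ι : Type*} (s : Finset ι) (Γ : T.A (X.prod Y)) (a : ι → T.A X) :
    T.act Γ (∑ i ∈ s, a i) = ∑ i ∈ s, T.act Γ (a i) := map_sum (T.actL Γ) a s

end bilinear

section dgact

variable {F : Type w} [Field F] {δ : ℤ} (T : TheoryData.{u, v, w} 𝒱 F) [hT : IsTheory T δ]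
  {X Y Z : 𝒱.Obj}

include hT in
lemma act_dg (a : T.A X) : T.act (dg T X) a = a := by
  rw [dg, T.act_graph, T.push_id]

end dgact

end Pool.Agent.W550.Corr
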