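import Pool.Agent.W550.Corr.Basic

/-!
# Transposes and external products of correspondences
-/

open CategoryTheory AlgebraicGeometry

universe u v w

namespace Pool.Agent.W550.Corr

open Pool.Agent.H914 Pool.Agent.H914.VarClass Pool.Agent.H914.VarClass.Obj Pool.Agent.W492.BB

variable {k : Type u} [Field k] {𝒱 : VarClass k}

section maps

/-- The isomorphism `(X × X') × (Y × Y') ⟶ (X × Y) × (X' × Y')`. -/
noncomputable def sh (X X' Y Y' : 𝒱.Obj) :
    (X.prod X').prod (Y.prod Y') ⟶ (X.prod Y).prod (X'.prod Y') :=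
  Obj.lift (prodMap (fst X X') (fst Y Y')) (prodMap (snd X X') (snd Y Y'))

lemma sh_sh (X X' Y Y' : 𝒱.Obj) : sh X X' Y Y' ≫ sh X Y X' Y' = 𝟙 _ := by
  apply prod_ext <;> apply prod_ext <;> simp [sh]

end maps

section theory

variable {F : Type w} [Field F] {δ : ℤ} (T : TheoryData.{u, v, w} 𝒱 F)

/-- The transpose of a correspondence. -/
noncomputable def tp {X Y : 𝒱.Obj} (Γ : T.A (X.prod Y)) : T.A (Y.prod X) := T.pull (sw Y X) Γ

/-- The external product of correspondences. -/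
noncomputable def tens {X X' Y Y' : 𝒱.Obj} (Γ : T.A (X.prod Y)) (Γ' : T.A (X'.prod Y')) :
    T.A ((X.prod X').prod (Y.prod Y')) :=
  T.pull (prodMap (fst X X') (fst Y Y')) Γ * T.pull (prodMap (snd X X') (snd Y Y')) Γ'

variable [hT : IsTheory T δ] {X X' Y Y' Z Z' W : 𝒱.Obj}

include hT

lemma push_ext (f : X ⟶ Y) (g : X' ⟶ Y') (a : T.A X) (b : T.A X') :
    T.push (prodMap f g) (T.ext a b) = T.ext (T.push f a) (T.push g b) := by
  have e1 : prodMap f g = prodMap f (𝟙 X') ≫ prodMap (𝟙 Y) g := by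
    apply prod_ext <;> simp
  have e2 : T.ext a b = T.pull (fst X X') a * T.pull (prodMap f (𝟙 X')) (T.pull (snd Y X') b) := by
    rw [← T.pull_comp, prodMap_snd, Category.comp_id]; rfl
  rw [e1, T.push_comp, e2, T.proj_right, ← T.base_fst]
  have e3 : T.pull (fst Y X') (T.push f a) =
      T.pull (prodMap (𝟙 Y) g) (T.pull (fst Y Y') (T.push f a)) := by
    rw [← T.pull_comp, prodMap_fst, Category.comp_id]
  rw [e3, T.proj_left, ← T.base_snd]
  rfl

lemma pull_ext (f : X ⟶ Y) (g : X' ⟶ Y') (a : T.A Y) (b : T.A Y') :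
    T.pull (prodMap f g) (T.ext a b) = T.ext (T.pull f a) (T.pull g b) := by
  rw [TheoryData.ext, map_mul, ← T.pull_comp, ← T.pull_comp, prodMap_fst, prodMap_snd,
    T.pull_comp, T.pull_comp]
  rfl

lemma tens_eq (Γ : T.A (X.prod Y)) (Γ' : T.A (X'.prod Y')) :
    tens T Γ Γ' = T.pull (sh X X' Y Y') (T.ext Γ Γ') := by
  rw [TheoryData.ext, map_mul, ← T.pull_comp, ← T.pull_comp, sh, lift_fst, lift_snd]
  rfl

lemma tp_tp (Γ : T.A (X.prod Y)) : tp T (tp T Γ) = Γ := by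
  rw [tp, tp, ← T.pull_comp, sw_sw, T.pull_id]

/-- The action of an external product of correspondences on an external product. -/
lemma act_tens_ext [hI : HasIso T] (Γ : T.A (X.prod Y)) (Γ' : T.A (X'.prod Y'))
    (hc : ∀ (V : 𝒱.Obj) (f : V ⟶ X'.prod Y') (c : T.A V), T.pull f Γ' * c = c * T.pull f Γ')
    (a : T.A X) (b : T.A X') :
    T.act (tens T Γ Γ') (T.ext a b) = T.ext (T.act Γ a) (T.act Γ' b) := by
  have h1 : tens T Γ Γ' * T.pull (fst (X.prod X') (Y.prod Y')) (T.ext a b) =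
      T.pull (sh X X' Y Y') (T.ext (Γ * T.pull (fst X Y) a) (Γ' * T.pull (fst X' Y') b)) := by
    rw [tens, TheoryData.ext, TheoryData.ext, map_mul (T.pull (fst (X.prod X') (Y.prod Y'))),
      map_mul (T.pull (sh X X' Y Y')), map_mul (T.pull (fst (X.prod Y) (X'.prod Y'))),
      map_mul (T.pull (snd (X.prod Y) (X'.prod Y'))), map_mul (T.pull (sh X X' Y Y')),
      map_mul (T.pull (sh X X' Y Y'))]
    simp only [← T.pull_comp]
    have e1 : sh X X' Y Y' ≫ fst (X.prod Y) (X'.prod Y') = prodMap (fst X X') (fst Y Y') :=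
      lift_fst _ _
    have e2 : sh X X' Y Y' ≫ snd (X.prod Y) (X'.prod Y') = prodMap (snd X X') (snd Y Y') :=
      lift_snd _ _
    have e3 : sh X X' Y Y' ≫ fst (X.prod Y) (X'.prod Y') ≫ fst X Y =
        fst (X.prod X') (Y.prod Y') ≫ fst X X' := by simp [sh]
    have e4 : sh X X' Y Y' ≫ snd (X.prod Y) (X'.prod Y') ≫ fst X' Y' =
        fst (X.prod X') (Y.prod Y') ≫ snd X X' := by simp [sh]
    rw [e1, e2, e3, e4, mul_assoc, mul_assoc, ← mul_assoc (T.pull (prodMap (snd X X') (snd Y Y')) Γ'),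
      hc, mul_assoc]
  rw [T.act_apply, h1]
  have e5 : snd (X.prod X') (Y.prod Y') = sh X X' Y Y' ≫ prodMap (snd X Y) (snd X' Y') := by
    apply prod_ext <;> simp [sh]
  rw [e5, T.push_comp, push_pull_iso T _ (sh X Y X' Y') (sh_sh _ _ _ _) (sh_sh _ _ _ _), push_ext]
  rfl

lemma dg_eq (X : 𝒱.Obj) : dg T X = T.push (Obj.lift (𝟙 X) (𝟙 X)) 1 := rfl

lemma tens_dg [hI : HasIso T] (X Y : 𝒱.Obj) : tens T (dg T X) (dg T Y) = dg T (X.prod Y) := by
  rw [tens_eq, pull_iso T (sh X Y X Y) (sh X X Y Y) (sh_sh _ _ _ _) (sh_sh _ _ _ _), dg_eq, dg_eq,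
    ← push_ext, ← T.push_comp]
  have e1 : prodMap (Obj.lift (𝟙 X) (𝟙 X)) (Obj.lift (𝟙 Y) (𝟙 Y)) ≫ sh X X Y Y =
      Obj.lift (𝟙 (X.prod Y)) (𝟙 (X.prod Y)) := by
    apply prod_ext <;> apply prod_ext <;> simp [sh]
  have e2 : T.ext (1 : T.A X) (1 : T.A Y) = 1 := by
    rw [TheoryData.ext, map_one, map_one, one_mul]
  rw [e1, e2, dg_eq]

lemma tp_dg [hI : HasIso T] (X : 𝒱.Obj) : tp T (dg T X) = dg T X := by
  rw [tp, pull_iso T (sw X X) (sw X X) sw_sw sw_sw, dg_eq, ← T.push_comp]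
  have e1 : Obj.lift (𝟙 X) (𝟙 X) ≫ sw X X = Obj.lift (𝟙 X) (𝟙 X) := by
    apply prod_ext <;> simp [sw]
  rw [e1]

end theory

section chow

variable (C : TheoryData.{u, v, 0} 𝒱 ℚ) [hC : IsChow C] [hI : HasIso C]
  {X X' Y Y' Z Z' W : 𝒱.Obj}

include hC hI

lemma tp_comp (Γ : C.A (X.prod Y)) (Δ : C.A (Y.prod Z)) :
    tp C (C.comp Γ Δ) = C.comp (tp C Δ) (tp C Γ) := by
  let ω : (Z.prod Y).prod X ⟶ (X.prod Y).prod Z :=
    Obj.lift (Obj.lift (snd (Z.prod Y) X) (fst (Z.prod Y) X ≫ snd Z Y))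
      (fst (Z.prod Y) X ≫ fst Z Y)
  let ω' : (X.prod Y).prod Z ⟶ (Z.prod Y).prod X :=
    Obj.lift (Obj.lift (snd (X.prod Y) Z) (fst (X.prod Y) Z ≫ snd X Y))
      (fst (X.prod Y) Z ≫ fst X Y)
  have h1 : ω ≫ ω' = 𝟙 _ := by
    apply prod_ext
    · apply prod_ext <;> simp [ω, ω', comp_lift]
    · simp [ω, ω', comp_lift]
  have h2 : ω' ≫ ω = 𝟙 _ := by
    apply prod_ext
    · apply prod_ext <;> simp [ω, ω', comp_lift]
    · simp [ω, ω', comp_lift]
  rw [tp, pull_iso C (sw Z X) (sw X Z) sw_sw sw_sw, TheoryData.comp, ← C.push_comp,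
    push_model C ω ω' h1 h2, map_mul, ← C.pull_comp, ← C.pull_comp, TheoryData.comp, tp, tp,
    ← C.pull_comp, ← C.pull_comp]
  have e1 : ω ≫ t13 X Y Z ≫ sw X Z = t13 Z Y X := by
    apply prod_ext <;> simp [ω, t13, sw]
  have e2 : ω ≫ t23 X Y Z = fst (Z.prod Y) X ≫ sw Z Y := by
    apply prod_ext <;> simp [ω, t23, sw]
  have e3 : ω ≫ fst (X.prod Y) Z = t23 Z Y X ≫ sw Y X := by
    apply prod_ext <;> simp [ω, t23, sw]
  rw [e1, e2, e3, chow_mul_comm]

lemma comp_tens (Γ : C.A (X.prod Y)) (Γ' : C.A (X'.prod Y')) (Δ : C.A (Y.prod Z))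
    (Δ' : C.A (Y'.prod Z')) :
    C.comp (tens C Γ Γ') (tens C Δ Δ') = tens C (C.comp Γ Δ) (C.comp Γ' Δ') := by
  let τ : ((X.prod X').prod (Y.prod Y')).prod (Z.prod Z') ⟶
      ((X.prod Y).prod Z).prod ((X'.prod Y').prod Z') :=
    Obj.lift (prodMap (prodMap (fst X X') (fst Y Y')) (fst Z Z'))
      (prodMap (prodMap (snd X X') (snd Y Y')) (snd Z Z'))
  let τ' : ((X.prod Y).prod Z).prod ((X'.prod Y').prod Z') ⟶
      ((X.prod X').prod (Y.prod Y')).prod (Z.prod Z') :=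
    Obj.lift (Obj.lift (prodMap (fst (X.prod Y) Z ≫ fst X Y) (fst (X'.prod Y') Z' ≫ fst X' Y'))
      (prodMap (fst (X.prod Y) Z ≫ snd X Y) (fst (X'.prod Y') Z' ≫ snd X' Y')))
      (prodMap (snd (X.prod Y) Z) (snd (X'.prod Y') Z'))
  have h1 : τ ≫ τ' = 𝟙 _ := by
    apply prod_ext
    · apply prod_ext <;> apply prod_ext <;> simp [τ, τ', comp_lift]
    · apply prod_ext <;> simp [τ, τ']
  have h2 : τ' ≫ τ = 𝟙 _ := by
    apply prod_ext
    · apply prod_ext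
      · apply prod_ext <;> simp [τ, τ']
      · simp [τ, τ']
    · apply prod_ext
      · apply prod_ext <;> simp [τ, τ']
      · simp [τ, τ']
  have h3 : C.pull (t23 (X.prod X') (Y.prod Y') (Z.prod Z')) (tens C Δ Δ') *
      C.pull (fst ((X.prod X').prod (Y.prod Y')) (Z.prod Z')) (tens C Γ Γ') =
      C.pull τ (C.ext (C.pull (t23 X Y Z) Δ * C.pull (fst (X.prod Y) Z) Γ)
        (C.pull (t23 X' Y' Z') Δ' * C.pull (fst (X'.prod Y') Z') Γ')) := by
    rw [TheoryData.ext, tens, tens]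
    simp only [map_mul, ← C.pull_comp]
    have e1 : τ ≫ fst ((X.prod Y).prod Z) ((X'.prod Y').prod Z') ≫ t23 X Y Z =
        t23 (X.prod X') (Y.prod Y') (Z.prod Z') ≫ prodMap (fst Y Y') (fst Z Z') := by
      apply prod_ext <;> simp [τ, t23]
    have e2 : τ ≫ snd ((X.prod Y).prod Z) ((X'.prod Y').prod Z') ≫ t23 X' Y' Z' =
        t23 (X.prod X') (Y.prod Y') (Z.prod Z') ≫ prodMap (snd Y Y') (snd Z Z') := by
      apply prod_ext <;> simp [τ, t23]
    have e3 : τ ≫ fst ((X.prod Y).prod Z) ((X'.prod Y').prod Z') ≫ fst (X.prod Y) Z =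
        fst ((X.prod X').prod (Y.prod Y')) (Z.prod Z') ≫ prodMap (fst X X') (fst Y Y') := by
      apply prod_ext <;> simp [τ]
    have e4 : τ ≫ snd ((X.prod Y).prod Z) ((X'.prod Y').prod Z') ≫ fst (X'.prod Y') Z' =
        fst ((X.prod X').prod (Y.prod Y')) (Z.prod Z') ≫ prodMap (snd X X') (snd Y Y') := by
      apply prod_ext <;> simp [τ]
    rw [e1, e2, e3, e4, mul_assoc, mul_assoc, ← mul_assoc (C.pull (_ ≫ prodMap (snd Y Y') _) _),
      chow_mul_comm (C.pull (_ ≫ prodMap (snd Y Y') _) _), mul_assoc]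
  rw [TheoryData.comp, h3]
  have e5 : t13 (X.prod X') (Y.prod Y') (Z.prod Z') =
      τ ≫ prodMap (t13 X Y Z) (t13 X' Y' Z') ≫ sh X Z X' Z' := by
    apply prod_ext <;> apply prod_ext <;> simp [τ, t13, sh]
  rw [e5, C.push_comp, push_pull_iso C τ τ' h1 h2, C.push_comp, push_ext, tens_eq,
    pull_iso C (sh X X' Z Z') (sh X Z X' Z') (sh_sh _ _ _ _) (sh_sh _ _ _ _)]
  rfl

/-- Lieberman's lemma. -/
lemma act_tens (Φ : C.A (X.prod X')) (Ψ : C.A (Y.prod Y')) (Γ : C.A (X.prod Y)) :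
    C.act (tens C Φ Ψ) Γ = C.comp (C.comp (tp C Φ) Γ) Ψ := by
  let κ : (X.prod Y).prod (X'.prod Y') ⟶ ((X'.prod X).prod Y).prod Y' :=
    Obj.lift (Obj.lift (Obj.lift (snd (X.prod Y) (X'.prod Y') ≫ fst X' Y')
      (fst (X.prod Y) (X'.prod Y') ≫ fst X Y)) (fst (X.prod Y) (X'.prod Y') ≫ snd X Y))
      (snd (X.prod Y) (X'.prod Y') ≫ snd X' Y')
  let κ' : ((X'.prod X).prod Y).prod Y' ⟶ (X.prod Y).prod (X'.prod Y') :=
    Obj.lift (Obj.lift (fst ((X'.prod X).prod Y) Y' ≫ fst (X'.prod X) Y ≫ snd X' X)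
      (fst ((X'.prod X).prod Y) Y' ≫ snd (X'.prod X) Y))
      (Obj.lift (fst ((X'.prod X).prod Y) Y' ≫ fst (X'.prod X) Y ≫ fst X' X)
        (snd ((X'.prod X).prod Y) Y'))
  have h1 : κ ≫ κ' = 𝟙 _ := by
    apply prod_ext <;> apply prod_ext <;> simp [κ, κ', comp_lift]
  have h2 : κ' ≫ κ = 𝟙 _ := by
    apply prod_ext
    · apply prod_ext
      · apply prod_ext <;> simp [κ, κ', comp_lift]
      · simp [κ, κ', comp_lift]
    · simp [κ, κ', comp_lift]
  have h3 : C.comp (C.comp (tp C Φ) Γ) Ψ = C.push (t13 X' Y Y') (C.pull (t23 X' Y Y') Ψ *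
      C.pull (fst (X'.prod Y) Y') (C.push (t13 X' X Y) (C.pull (t23 X' X Y) Γ *
        C.pull (fst (X'.prod X) Y) (C.pull (sw X' X) Φ)))) := rfl
  rw [h3, C.base_fst, ← C.proj_left, ← C.push_comp, push_model C κ κ' h1 h2]
  simp only [map_mul, ← C.pull_comp]
  have e1 : κ ≫ prodMap (t13 X' X Y) (𝟙 Y') ≫ t13 X' Y Y' = snd (X.prod Y) (X'.prod Y') := by
    apply prod_ext <;> simp [κ, t13]
  have e2 : κ ≫ prodMap (t13 X' X Y) (𝟙 Y') ≫ t23 X' Y Y' = prodMap (snd X Y) (snd X' Y') := by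
    apply prod_ext <;> simp [κ, t13, t23]
  have e3 : κ ≫ fst ((X'.prod X).prod Y) Y' ≫ t23 X' X Y = fst (X.prod Y) (X'.prod Y') := by
    apply prod_ext <;> simp [κ, t23]
  have e4 : κ ≫ fst ((X'.prod X).prod Y) Y' ≫ fst (X'.prod X) Y ≫ sw X' X =
      prodMap (fst X Y) (fst X' Y') := by
    apply prod_ext <;> simp [κ, sw]
  rw [e1, e2, e3, e4, C.act_apply, tens]
  congr 1
  rw [chow_mul_comm (C.pull (fst (X.prod Y) (X'.prod Y')) Γ), ← mul_assoc,
    chow_mul_comm (C.pull (prodMap (snd X Y) (snd X' Y')) Ψ)]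

end chow

section weil

variable {C : TheoryData.{u, v, 0} 𝒱 ℚ} {K : Type w} [Field K] (H : WeilTheoryData.{u, v, w} C K)
  [hC : IsChow C] [hI : HasIso C] [hH : IsWeil H] {X X' Y Y' Z : 𝒱.Obj}

include hI hH in
instance hasIso_weil : HasIso H.toTheoryData where
  push_one {X Y} f g h1 h2 := by
    have h3 : C.push f 1 = 1 := hI.push_one f g h1 h2
    have h4 := H.cl_push f 1
    rw [h3, map_one, map_one] at h4
    exact h4.symm

lemma cl_comp (Γ : C.A (X.prod Y)) (Δ : C.A (Y.prod Z)) :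
    H.cl (C.comp Γ Δ) = H.comp (H.cl Γ) (H.cl Δ) := by
  rw [TheoryData.comp, TheoryData.comp, H.cl_push, map_mul, H.cl_pull, H.cl_pull]

lemma cl_tens (Γ : C.A (X.prod Y)) (Γ' : C.A (X'.prod Y')) :
    H.cl (tens C Γ Γ') = tens H.toTheoryData (H.cl Γ) (H.cl Γ') := by
  rw [tens, tens, map_mul, H.cl_pull, H.cl_pull]

lemma cl_dg (X : 𝒱.Obj) : H.cl (dg C X) = dg H.toTheoryData X := by
  rw [dg, dg, TheoryData.graph, TheoryData.graph, H.cl_push, map_one]

lemma cl_ext (a : C.A X) (b : C.A Y) : H.cl (C.ext a b) = H.ext (H.cl a) (H.cl b) := by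
  rw [TheoryData.ext, TheoryData.ext, map_mul, H.cl_pull, H.cl_pull]

/-- The action of an external product of correspondences on cohomology. -/
lemma actH_tens (Γ : C.A (X.prod Y)) (Γ' : C.A (X'.prod Y')) (a : H.A X) (b : H.A X') :
    H.act (H.cl (tens C Γ Γ')) (H.ext a b) = H.ext (H.act (H.cl Γ) a) (H.act (H.cl Γ') b) := by
  rw [cl_tens]
  exact act_tens_ext H.toTheoryData _ _ (fun V f c => by
    rw [← H.cl_pull, H.cl_central]) a b

/-- The transpose is the adjoint. -/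
lemma tr_tp (Γ : C.A (X.prod Y)) (a : H.A X) (b : H.A Y) :
    H.tr X (H.act (H.cl (tp C Γ)) b * a) = H.tr Y (b * H.act (H.cl Γ) a) := by
  have h1 : H.tr X (H.act (H.cl (tp C Γ)) b * a) = H.tr (Y.prod X)
      (H.cl (tp C Γ) * H.pull (fst Y X) b * H.pull (snd Y X) a) := by
    rw [TheoryData.act_apply, ← H.proj_right, H.tr_push]
  have h2 : H.cl (tp C Γ) * H.pull (fst Y X) b * H.pull (snd Y X) a =
      H.pull (sw Y X) (H.cl Γ * H.pull (snd X Y) b * H.pull (fst X Y) a) := by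
    rw [map_mul, map_mul, ← H.pull_comp, ← H.pull_comp, tp, H.cl_pull]
    have e1 : sw Y X ≫ snd X Y = fst Y X := lift_snd _ _
    have e2 : sw Y X ≫ fst X Y = snd Y X := lift_fst _ _
    rw [e1, e2]
  have h3 : H.tr (Y.prod X) (H.pull (sw Y X) (H.cl Γ * H.pull (snd X Y) b * H.pull (fst X Y) a)) =
      H.tr (X.prod Y) (H.cl Γ * H.pull (snd X Y) b * H.pull (fst X Y) a) := by
    rw [← H.tr_push (sw Y X), push_pull_iso H.toTheoryData (sw Y X) (sw X Y) sw_sw sw_sw]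
  rw [h1, h2, h3, H.cl_central, mul_assoc, ← H.tr_push (snd X Y), H.proj_left]
  rfl

end weil

end Pool.Agent.W550.Corr
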